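import Pool.Agent.Helper29.SR.Props
import Pool.Agent.Helper10.RC.Homs
import Pool.Agent.Helper69.RC.QB1

/-!
# MP_b55b7c_an, packet SR-Rk: values of a trace and ranks
-/

open scoped ENNReal NNReal InnerProductSpace ComplexOrder
open Filter Topology

attribute [-instance] CStarMatrix.instAlgebra CStarMatrix.instModule CStarMatrix.instSMul
  CStarMatrix.instMulAction CStarMatrix.instDistribMulAction

noncomputable section
namespace RC
universe u

section
variable {M : Type u} [CStarAlgebra M] [PartialOrder M] [StarOrderedRing M]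

theorem rk_re_mono (φ : TState M) {x y : M} (h : x ≤ y) : (φ.φ x).re ≤ (φ.φ y).re := by
  have h1 := φ.nonneg (y - x) (sub_nonneg.mpr h)
  rw [map_sub] at h1
  have h2 := (Complex.nonneg_iff.mp h1).1
  rw [Complex.sub_re] at h2
  linarith

theorem rk_tau (φ : TState M) (σ : QTrace M) (h : IsQ φ σ) {c : M} (hc : 0 ≤ c) {G : ℝ → ℝ}
    (hG : Continuous G) (n : ℕ) :
    σ.τ Unit (cfc (fun t : ℝ => min 1 ((n : ℝ) * t)) (one1 (cfc G c))) =
      (φ.φ (cfc (fun t : ℝ => min 1 ((n : ℝ) * G t)) c)).re := by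
  have hsa : IsSelfAdjoint c := IsSelfAdjoint.of_nonneg hc
  have hf : Continuous fun t : ℝ => min 1 ((n : ℝ) * t) := by fun_prop
  rw [← one1_cfc _ hf _ (cfc_predicate G c), h Unit]
  have e : cfc (fun t : ℝ => min 1 ((n : ℝ) * G t)) c =
      cfc (fun t : ℝ => min 1 ((n : ℝ) * t)) (cfc G c) :=
    cfc_comp' (fun t : ℝ => min 1 ((n : ℝ) * t)) G c hf.continuousOn hG.continuousOn hsa
  rw [e]
  simp [one1]

end

theorem rkP : RkP.{u} := by
  intro M _ _ _ φ σ hq c hc g G hg hG hg0 hG0
  have hsa : IsSelfAdjoint c := IsSelfAdjoint.of_nonneg hc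
  have hone : φ.φ 1 = 1 := φ.one
  have hGc : 0 ≤ cfc G c := cfc_nonneg fun t _ => hG0 t
  have hbdd := (qBasicP M σ Unit (one1 (cfc G c)) (one1_nonneg hGc)).1
  have htau := fun n => rk_tau φ σ hq hc hG n
  refine ⟨fun hg1 hz => ?_, fun h1 => ?_⟩
  · refine le_of_forall_pos_le_add fun ε hε => ?_
    have hK : IsCompact (spectrum ℝ c ∩ {t | ε ≤ g t}) :=
      (spectrum.isCompact c).inter_right (isClosed_le continuous_const hg)
    obtain ⟨κ, hκ, hκ'⟩ : ∃ κ : ℝ, 0 < κ ∧ ∀ t ∈ spectrum ℝ c ∩ {t | ε ≤ g t}, κ ≤ G t := by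
      rcases (spectrum ℝ c ∩ {t | ε ≤ g t}).eq_empty_or_nonempty with he | hne
      · exact ⟨1, one_pos, fun t ht => by rw [he] at ht; exact ht.elim⟩
      · obtain ⟨t0, ht0, hmin⟩ := hK.exists_isMinOn hne hG.continuousOn
        refine ⟨G t0, ?_, fun t ht => hmin ht⟩
        rcases (hG0 t0).lt_or_eq with h | h
        · exact h
        · have := hz t0 h.symm
          have h2 : ε ≤ g t0 := ht0.2
          linarith
    obtain ⟨n, hn⟩ := exists_nat_ge κ⁻¹
    have hcont : Continuous fun t : ℝ => min 1 ((n : ℝ) * G t) + ε := by fun_prop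
    have hle : cfc g c ≤ cfc (fun t : ℝ => min 1 ((n : ℝ) * G t) + ε) c := by
      refine cfc_mono (fun t ht => ?_) hg.continuousOn hcont.continuousOn
      by_cases h : ε ≤ g t
      · have h3 := hκ' t ⟨ht, h⟩
        have h4 : 1 ≤ (n : ℝ) * G t := by
          calc (1 : ℝ) = κ⁻¹ * κ := (inv_mul_cancel₀ hκ.ne').symm
            _ ≤ (n : ℝ) * G t := mul_le_mul hn h3 hκ.le (Nat.cast_nonneg n)
        rw [min_eq_left h4]
        linarith [hg1 t]
      · push Not at h
        have h5 : 0 ≤ min 1 ((n : ℝ) * G t) :=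
          le_min zero_le_one (mul_nonneg (Nat.cast_nonneg n) (hG0 t))
        linarith
    have e1 : cfc (fun t : ℝ => min 1 ((n : ℝ) * G t) + ε) c =
        cfc (fun t : ℝ => min 1 ((n : ℝ) * G t)) c + algebraMap ℝ M ε := by
      rw [cfc_add_const ε (fun t : ℝ => min 1 ((n : ℝ) * G t)) c]
    have h6 := rk_re_mono φ hle
    rw [e1, map_add, Complex.add_re] at h6
    have h7 : (φ.φ (algebraMap ℝ M ε)).re = ε := by
      have : (algebraMap ℝ M ε) = ((ε : ℂ)) • (1 : M) := by
        rw [Algebra.algebraMap_eq_smul_one]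
        exact (Complex.coe_smul ε (1 : M)).symm
      rw [this, map_smul, hone]
      simp
    rw [h7] at h6
    have h8 : (φ.φ (cfc (fun t : ℝ => min 1 ((n : ℝ) * G t)) c)).re ≤
        σ.dim (one1 (cfc G c)) := by
      rw [← htau n]
      exact le_ciSup hbdd n
    linarith
  · refine ciSup_le fun n => ?_
    rw [htau n]
    refine rk_re_mono φ (cfc_mono (fun t _ => ?_) (by fun_prop) hg.continuousOn)
    by_cases h : G t = 0
    · rw [h, mul_zero]
      exact (min_le_right _ _).trans (hg0 t)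
    · exact (min_le_left _ _).trans (h1 t h)

end RC
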